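import Mathlib
import Pool.Agent.W17.NF.Stm
import Pool.Agent.H691R3.Class

/-!
# NF-PACK
-/

set_option autoImplicit false

namespace Pool.Agent.W249.NF

open NumberField Finset Pool.Agent.W17.NF

theorem stmtPack (K : Type) [Field K] [NumberField K] : StmtPack K := by
  classical
  refine ⟨9, by norm_num, fun Z ρ s hρ hs hZ hsep => ?_⟩
  obtain ⟨w0⟩ : Nonempty (InfinitePlace K) := inferInstance
  have hA : 0 < ∏ w : InfinitePlace K, ρ w ^ w.mult := Finset.prod_pos fun w _ => pow_pos (hρ w) _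
  rcases Z.eq_empty_or_nonempty with rfl | ⟨c, hc⟩
  · simp only [Finset.card_empty, Nat.cast_zero]
    positivity
  set m := w0.mult with hm
  have hm0 : 0 < m := InfinitePlace.mult_pos
  set P : ℝ := ∏ w ∈ univ.erase w0, ρ w ^ w.mult with hPdef
  have hP : 0 < P := Finset.prod_pos fun w _ => pow_pos (hρ w) _
  have hprod : ∏ w : InfinitePlace K, ρ w ^ w.mult = ρ w0 ^ m * P :=
    (Finset.mul_prod_erase univ (fun w : InfinitePlace K => ρ w ^ w.mult) (mem_univ w0)).symm
  have hm' : (m : ℝ) ≠ 0 := by exact_mod_cast hm0.ne'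
  set r : ℝ := (s / P) ^ (1 / (m : ℝ)) with hrdef
  have hr : 0 < r := Real.rpow_pos_of_pos (div_pos hs hP) _
  have hrm : r ^ m = s / P := by
    rw [hrdef, ← Real.rpow_natCast, ← Real.rpow_mul (div_pos hs hP).le, one_div,
      inv_mul_cancel₀ hm', Real.rpow_one]
  have h1 := Pool.Agent.H691R3.packing_place w0 Z c (ρ w0) r (hρ w0).le hr
    (fun x hx => hZ x hx c hc w0) ?_
  · have ht : 0 ≤ ρ w0 / r := by have := hρ w0; positivity
    have h2 : (ρ w0 / r) ^ m = (∏ w : InfinitePlace K, ρ w ^ w.mult) / s := by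
      rw [div_pow, hrm, hprod]
      field_simp
    have h3 : (1 + 2 * ρ w0 / r) ^ m ≤ 9 * (1 + (ρ w0 / r) ^ m) := by
      have e : 2 * ρ w0 / r = 2 * (ρ w0 / r) := by ring
      rw [e]
      rcases InfinitePlace.isReal_or_isComplex w0 with hw | hw
      · have : m = 1 := by rw [hm, InfinitePlace.mult, if_pos hw]
        rw [this, pow_one, pow_one]; linarith
      · have : m = 2 := by
          rw [hm, InfinitePlace.mult, if_neg (InfinitePlace.not_isReal_iff_isComplex.mpr hw)]
        rw [this]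
        nlinarith [sq_nonneg (ρ w0 / r - 1)]
    calc (Z.card : ℝ) ≤ (1 + 2 * ρ w0 / r) ^ m := h1
      _ ≤ 9 * (1 + (ρ w0 / r) ^ m) := h3
      _ = _ := by rw [h2]
  · intro x hx y hy hxy
    have h4 := hsep x hx y hy hxy
    have h5 : ∏ w : InfinitePlace K, w (x - y) ^ w.mult ≤ w0 (x - y) ^ m * P := by
      rw [← Finset.mul_prod_erase univ (fun w : InfinitePlace K => w (x - y) ^ w.mult)
        (mem_univ w0)]
      refine mul_le_mul_of_nonneg_left ?_ (pow_nonneg (apply_nonneg _ _) _)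
      refine Finset.prod_le_prod (fun w _ => pow_nonneg (apply_nonneg _ _) _) fun w _ => ?_
      exact pow_le_pow_left₀ (apply_nonneg _ _) (hZ x hx y hy w) _
    have h6 : r ^ m ≤ w0 (x - y) ^ m := by
      rw [hrm, div_le_iff₀ hP]
      exact h4.trans h5
    exact (pow_le_pow_iff_left₀ hr.le (apply_nonneg _ _) hm0.ne').mp h6

end Pool.Agent.W249.NF
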